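import Mathlib

/-!
Sizes of flat maximal antichains: `14 = min S(7,3)` but `15 ∉ S(7,3)`.
-/

namespace Pool.Agent.Results.MP_6c6cee_co.GapAfterFano

open Finset

/-- `𝒜` is a maximal antichain in the Boolean lattice of all subsets of an `n`-set. -/
def IsMaxAntichain (n : ℕ) (𝒜 : Finset (Finset (Fin n))) : Prop :=
  (∀ A ∈ 𝒜, ∀ B ∈ 𝒜, ¬ A ⊂ B) ∧ ∀ S : Finset (Fin n), S ∉ 𝒜 → ∃ A ∈ 𝒜, A ⊂ S ∨ S ⊂ A

/-- `S(n,l)`. -/
def S (n l : ℕ) : Set ℕ :=
  {m | ∃ 𝒜 : Finset (Finset (Fin n)), (∀ A ∈ 𝒜, A.card = l ∨ A.card = l + 1) ∧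
    IsMaxAntichain n 𝒜 ∧ 𝒜.card = m}

/-- `T(n,l) = C(n,l+1) - (n-l-1) ⌈(n-l)/2⌉`. -/
def T (n l : ℕ) : ℤ := (n.choose (l + 1) : ℤ) - ((n : ℤ) - l - 1) * ((n - l + 1) / 2 : ℕ)

/-- The `k`-subsets. -/
def P (k : ℕ) : Finset (Finset (Fin 7)) := powersetCard k univ

lemma mem_P {k : ℕ} {X : Finset (Fin 7)} : X ∈ P k ↔ X.card = k := by
  unfold P; rw [mem_powersetCard]; exact ⟨fun h => h.2, fun h => ⟨subset_univ _, h⟩⟩

/-- Number of supersets of size `k`. -/
lemma card_super (W : Finset (Fin 7)) (k : ℕ) (h : W.card ≤ k) :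
    ((P k).filter (fun U => W ⊆ U)).card = (7 - W.card).choose (k - W.card) := by
  have h1 : (powersetCard (k - W.card) Wᶜ).card = (7 - W.card).choose (k - W.card) := by
    rw [card_powersetCard, card_compl, Fintype.card_fin]
  rw [← h1]
  refine card_nbij' (fun U => U \ W) (fun V => V ∪ W) ?_ ?_ ?_ ?_
  · intro U hU
    rw [mem_coe, mem_filter, mem_P] at hU
    rw [mem_coe, mem_powersetCard]
    refine ⟨fun x hx => ?_, ?_⟩
    · rw [mem_compl]; exact (mem_sdiff.1 hx).2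
    · rw [card_sdiff_of_subset hU.2, hU.1]
  · intro V hV
    rw [mem_coe, mem_powersetCard] at hV
    rw [mem_coe, mem_filter, mem_P]
    refine ⟨?_, subset_union_right⟩
    rw [card_union_of_disjoint, hV.2]
    · omega
    · rw [disjoint_left]
      intro x hx hx'
      exact (mem_compl.1 (hV.1 hx)) hx'
  · intro U hU
    rw [mem_coe, mem_filter] at hU
    exact sdiff_union_of_subset hU.2
  · intro V hV
    rw [mem_coe, mem_powersetCard] at hV
    apply union_sdiff_cancel_right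
    rw [disjoint_left]
    intro x hx hx'
    exact (mem_compl.1 (hV.1 hx)) hx'

lemma card_super_zero (W : Finset (Fin 7)) (k : ℕ) (h : k < W.card) :
    ((P k).filter (fun U => W ⊆ U)).card = 0 := by
  rw [card_eq_zero, filter_eq_empty_iff]
  intro U hU hWU
  rw [mem_P] at hU
  have := card_le_card hWU
  omega

/-- Two-sided counting for a pair of triples. -/
lemma pair_count (T₁ T₂ : Finset (Fin 7)) (h1 : T₁.card = 3) (h2 : T₂.card = 3) :
    ((P 2).filter (fun Q => Q ⊆ T₁ ∧ Q ⊆ T₂)).card + (if T₁ = T₂ then 1 else 0)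
      = ((P 4).filter (fun U => T₁ ⊆ U ∧ T₂ ⊆ U)).card := by
  have e1 : (P 2).filter (fun Q => Q ⊆ T₁ ∧ Q ⊆ T₂) = powersetCard 2 (T₁ ∩ T₂) := by
    ext Q
    rw [mem_filter, mem_P, mem_powersetCard, subset_inter_iff]
    tauto
  have e2 : (P 4).filter (fun U => T₁ ⊆ U ∧ T₂ ⊆ U) = (P 4).filter (fun U => T₁ ∪ T₂ ⊆ U) := by
    ext U
    rw [mem_filter, mem_filter, union_subset_iff]
  rw [e1, e2, card_powersetCard]
  have h3 := card_union_add_card_inter T₁ T₂
  by_cases h : T₁ = T₂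
  · subst h
    rw [if_pos rfl, inter_self, union_self, card_super _ _ (by omega), h1]
    decide
  · rw [if_neg h]
    have h4 : (T₁ ∩ T₂).card ≤ 2 := by
      by_contra hcon
      push Not at hcon
      have h5 : T₁ ∩ T₂ = T₁ := eq_of_subset_of_card_le inter_subset_left (by omega)
      have h6 : T₁ ∩ T₂ = T₂ := eq_of_subset_of_card_le inter_subset_right (by omega)
      exact h (h5.symm.trans h6)
    by_cases h5 : (T₁ ∩ T₂).card = 2
    · rw [card_super _ _ (by omega), h5]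
      have : (T₁ ∪ T₂).card = 4 := by omega
      rw [this]
      decide
    · rw [card_super_zero _ _ (by omega)]
      have : (T₁ ∩ T₂).card = 0 ∨ (T₁ ∩ T₂).card = 1 := by omega
      rcases this with h6 | h6 <;> rw [h6] <;> decide

section
variable (A : Finset (Finset (Fin 7)))

/-- Number of members of `A` containing `Q`. -/
def t (Q : Finset (Fin 7)) : ℕ := (A.filter (fun T => Q ⊆ T)).card

/-- Number of members of `A` contained in `U`. -/
def c (U : Finset (Fin 7)) : ℕ := (A.filter (fun T => T ⊆ U)).card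

variable (hA : ∀ T ∈ A, T.card = 3)
include hA

lemma sum_t : ∑ Q ∈ P 2, t A Q = 3 * A.card := by
  have h : ∀ Q, t A Q = ∑ T ∈ A, if Q ⊆ T then 1 else 0 := fun Q => by
    unfold t; rw [card_filter]
  rw [sum_congr rfl fun Q _ => h Q, sum_comm]
  have h2 : ∀ T ∈ A, ∑ Q ∈ P 2, (if Q ⊆ T then 1 else 0) = 3 := by
    intro T hT
    rw [← card_filter]
    have : (P 2).filter (fun Q => Q ⊆ T) = powersetCard 2 T := by
      ext Q
      rw [mem_filter, mem_P, mem_powersetCard]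
      tauto
    rw [this, card_powersetCard, hA T hT]
    decide
  rw [sum_congr rfl h2, sum_const, smul_eq_mul, mul_comm]

lemma sum_c : ∑ U ∈ P 4, c A U = 4 * A.card := by
  have h : ∀ U, c A U = ∑ T ∈ A, if T ⊆ U then 1 else 0 := fun U => by
    unfold c; rw [card_filter]
  rw [sum_congr rfl fun U _ => h U, sum_comm]
  have h2 : ∀ T ∈ A, ∑ U ∈ P 4, (if T ⊆ U then 1 else 0) = 4 := by
    intro T hT
    rw [← card_filter, card_super _ _ (by rw [hA T hT]; omega), hA T hT]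
    decide
  rw [sum_congr rfl h2, sum_const, smul_eq_mul, mul_comm]

lemma sum_sq : ∑ Q ∈ P 2, t A Q ^ 2 + A.card = ∑ U ∈ P 4, c A U ^ 2 := by
  have h : ∀ Q, t A Q ^ 2 = ∑ T₁ ∈ A, ∑ T₂ ∈ A, if Q ⊆ T₁ ∧ Q ⊆ T₂ then 1 else 0 := by
    intro Q
    have : t A Q = ∑ T ∈ A, if Q ⊆ T then 1 else 0 := by unfold t; rw [card_filter]
    rw [this, sq, sum_mul_sum]
    refine sum_congr rfl fun T₁ _ => sum_congr rfl fun T₂ _ => ?_
    by_cases h1 : Q ⊆ T₁ <;> by_cases h2 : Q ⊆ T₂ <;> simp [h1, h2]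
  have h' : ∀ U, c A U ^ 2 = ∑ T₁ ∈ A, ∑ T₂ ∈ A, if T₁ ⊆ U ∧ T₂ ⊆ U then 1 else 0 := by
    intro U
    have : c A U = ∑ T ∈ A, if T ⊆ U then 1 else 0 := by unfold c; rw [card_filter]
    rw [this, sq, sum_mul_sum]
    refine sum_congr rfl fun T₁ _ => sum_congr rfl fun T₂ _ => ?_
    by_cases h1 : T₁ ⊆ U <;> by_cases h2 : T₂ ⊆ U <;> simp [h1, h2]
  rw [sum_congr rfl fun Q _ => h Q, sum_congr rfl fun U _ => h' U, sum_comm,
    sum_comm (s := P 4)]
  have h3 : A.card = ∑ T₁ ∈ A, ∑ T₂ ∈ A, if T₁ = T₂ then 1 else 0 := by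
    rw [sum_congr rfl fun T₁ hT => by rw [sum_ite_eq, if_pos hT], sum_const, smul_eq_mul, mul_one]
  rw [h3, ← sum_add_distrib]
  refine sum_congr rfl fun T₁ hT₁ => ?_
  rw [sum_comm, sum_comm (s := P 4), ← sum_add_distrib]
  refine sum_congr rfl fun T₂ hT₂ => ?_
  rw [← card_filter, ← card_filter]
  exact pair_count T₁ T₂ (hA T₁ hT₁) (hA T₂ hT₂)

lemma even_t (x : Fin 7) : Even (∑ Q ∈ (P 2).filter (fun Q => x ∈ Q), t A Q) := by
  have h : ∀ Q, t A Q = ∑ T ∈ A, if Q ⊆ T then 1 else 0 := fun Q => by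
    unfold t; rw [card_filter]
  rw [sum_congr rfl fun Q _ => h Q, sum_comm]
  refine Finset.sum_induction _ (fun m => Even m) (fun _ _ => Even.add) Even.zero fun T hT => ?_
  rw [← card_filter, filter_filter]
  by_cases hx : x ∈ T
  · have : (P 2).filter (fun Q => x ∈ Q ∧ Q ⊆ T) = (T.erase x).image (fun y => {x, y}) := by
      ext Q
      rw [mem_filter, mem_P, mem_image]
      constructor
      · rintro ⟨h1, h2, h3⟩
        obtain ⟨y, hy⟩ := card_eq_one.1 (by rw [card_erase_of_mem h2, h1] : (Q.erase x).card = 1)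
        have hyQ : y ∈ Q.erase x := by rw [hy]; exact mem_singleton_self y
        refine ⟨y, mem_erase.2 ⟨(mem_erase.1 hyQ).1, h3 (mem_erase.1 hyQ).2⟩, ?_⟩
        rw [← insert_erase h2, hy]
      · rintro ⟨y, hy, rfl⟩
        rw [mem_erase] at hy
        refine ⟨card_pair hy.1.symm, mem_insert_self _ _, ?_⟩
        intro z hz
        rw [mem_insert, mem_singleton] at hz
        rcases hz with h | h
        · rw [h]; exact hx
        · rw [h]; exact hy.2
    rw [this, card_image_of_injOn, card_erase_of_mem hx, hA T hT]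
    · decide
    · intro y hy z hz hyz
      rw [mem_coe, mem_erase] at hy hz
      have h1 : y ∈ ({x, z} : Finset (Fin 7)) := by
        have : ({x, y} : Finset (Fin 7)) = {x, z} := hyz
        rw [← this]
        exact mem_insert_of_mem (mem_singleton_self y)
      rw [mem_insert, mem_singleton] at h1
      rcases h1 with h | h
      · exact absurd h hy.1
      · exact h
  · have : (P 2).filter (fun Q => x ∈ Q ∧ Q ⊆ T) = ∅ := by
      rw [filter_eq_empty_iff]
      rintro Q - ⟨h1, h2⟩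
      exact hx (h2 h1)
    rw [this]
    decide

omit hA in
lemma card_six' : ∀ x : Fin 7, ((powersetCard 2 (univ : Finset (Fin 7))).filter
    (fun Q => x ∈ Q)).card = 6 := by decide +kernel

omit hA in
lemma card_six (x : Fin 7) : ((P 2).filter (fun Q => x ∈ Q)).card = 6 := card_six' x

/-- No seven triples leave exactly eight four-sets uncovered. -/
theorem key (h7 : A.card = 7) (h8 : ((P 4).filter (fun U => c A U = 0)).card = 8) : False := by
  have hP4 : (P 4).card = 35 := by unfold P; rw [card_powersetCard, card_univ, Fintype.card_fin]; decide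
  have hP2 : (P 2).card = 21 := by unfold P; rw [card_powersetCard, card_univ, Fintype.card_fin]; decide
  set N := (P 4).filter (fun U => ¬ c A U = 0) with hN
  have hNc : N.card = 27 := by
    have := card_filter_add_card_filter_not (s := P 4) (fun U => c A U = 0)
    rw [h8, hP4, ← hN] at this
    omega
  have hs1 : ∑ U ∈ N, c A U = 28 := by
    rw [hN, sum_filter_of_ne (fun U _ h => h), sum_c A hA, h7]
  have hs2 : ∑ U ∈ N, c A U ^ 2 = ∑ U ∈ P 4, c A U ^ 2 := by
    rw [hN]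
    refine sum_filter_of_ne (fun U _ h h0 => h ?_)
    rw [h0]; norm_num
  have hpos : ∀ U ∈ N, 1 ≤ c A U := by
    intro U hU
    rw [hN, mem_filter] at hU
    omega
  -- the excess is one
  have hex : ∑ U ∈ N, (c A U - 1) = 1 := by
    have h1 : ∑ U ∈ N, ((c A U - 1) + 1) = 28 := by
      rw [← hs1]
      exact sum_congr rfl fun U hU => by have := hpos U hU; omega
    rw [sum_add_distrib, sum_const, smul_eq_mul, hNc] at h1
    omega
  have hex2 : ∑ U ∈ N, (c A U - 1) ^ 2 = 1 := by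
    have h0 : ∑ U ∈ N, (c A U - 1) ^ 2 = ∑ U ∈ N, (c A U - 1) := by
      refine sum_congr rfl fun U hU => ?_
      have h1 : c A U - 1 ≤ ∑ U ∈ N, (c A U - 1) :=
        single_le_sum (f := fun U => c A U - 1) (fun _ _ => Nat.zero_le _) hU
      rw [hex] at h1
      have : c A U - 1 = 0 ∨ c A U - 1 = 1 := by omega
      rcases this with h | h <;> rw [h] <;> norm_num
    rw [h0, hex]
  have hsq : ∑ U ∈ P 4, c A U ^ 2 = 30 := by
    rw [← hs2]
    have h1 : ∀ U ∈ N, c A U ^ 2 = (c A U - 1) ^ 2 + 2 * (c A U - 1) + 1 := by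
      intro U hU
      obtain ⟨m, hm⟩ : ∃ m, c A U = m + 1 := ⟨c A U - 1, by have := hpos U hU; omega⟩
      rw [hm, Nat.add_sub_cancel]; ring
    rw [sum_congr rfl h1, sum_add_distrib, sum_add_distrib, ← mul_sum, hex, hex2, sum_const, hNc]
    norm_num
  have ht1 := sum_t A hA
  have ht2 := sum_sq A hA
  rw [hsq, h7] at ht2
  rw [h7] at ht1
  -- deviations
  have hdev : ∑ Q ∈ P 2, ((t A Q : ℤ) - 1) ^ 2 = 2 := by
    have h1 : ∑ Q ∈ P 2, ((t A Q : ℤ)) ^ 2 = 23 := by
      have : ∑ Q ∈ P 2, t A Q ^ 2 = 23 := by omega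
      exact_mod_cast this
    have h2 : ∑ Q ∈ P 2, (t A Q : ℤ) = 21 := by exact_mod_cast ht1
    have h3 : ∀ Q ∈ P 2, ((t A Q : ℤ) - 1) ^ 2 = (t A Q : ℤ) ^ 2 - 2 * (t A Q : ℤ) + 1 := by
      intro Q _; ring
    rw [sum_congr rfl h3, sum_add_distrib, sum_sub_distrib, ← mul_sum, h1, h2, sum_const, hP2]
    norm_num
  have hle : ∀ Q ∈ P 2, ((t A Q : ℤ) - 1) ^ 2 ≤ 2 := by
    intro Q hQ
    rw [← hdev]
    exact single_le_sum (f := fun Q => ((t A Q : ℤ) - 1) ^ 2) (fun _ _ => sq_nonneg _) hQ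
  have ht012 : ∀ Q ∈ P 2, t A Q = 0 ∨ t A Q = 1 ∨ t A Q = 2 := by
    intro Q hQ
    have := hle Q hQ
    have h3 : (t A Q : ℤ) ≤ 2 := by nlinarith
    have h4 : t A Q ≤ 2 := by exact_mod_cast h3
    omega
  set Z := (P 2).filter (fun Q => ¬ t A Q = 1) with hZ
  have hZc : Z.card = 2 := by
    have h1 : ∀ Q ∈ P 2, ((t A Q : ℤ) - 1) ^ 2 = if ¬ t A Q = 1 then 1 else 0 := by
      intro Q hQ
      rcases ht012 Q hQ with h | h | h <;> rw [h] <;> norm_num
    rw [sum_congr rfl h1, Finset.sum_boole] at hdev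
    exact_mod_cast hdev
  have heven : ∀ x : Fin 7, Even ((Z.filter (fun Q => x ∈ Q)).card) := by
    intro x
    have h1 := even_t A hA x
    have h2 : ∀ Q ∈ (P 2).filter (fun Q => x ∈ Q), (t A Q : ZMod 2) = (if ¬ t A Q = 1 then 1 else 0) + 1 := by
      intro Q hQ
      rcases ht012 Q (mem_filter.1 hQ).1 with h | h | h <;> rw [h] <;> decide
    have h3 : ((∑ Q ∈ (P 2).filter (fun Q => x ∈ Q), t A Q : ℕ) : ZMod 2) = 0 :=
      (ZMod.natCast_eq_zero_iff_even).2 h1
    have h6 : ((P 2).filter (fun Q => x ∈ Q)).card = 6 := card_six x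
    rw [Nat.cast_sum, sum_congr rfl h2, sum_add_distrib, Finset.sum_boole, sum_const, h6] at h3
    have h7' : (6 • (1 : ZMod 2)) = 0 := by decide
    rw [h7', add_zero, filter_filter] at h3
    have h8' : Z.filter (fun Q => x ∈ Q) = (P 2).filter (fun Q => x ∈ Q ∧ ¬ t A Q = 1) := by
      rw [hZ, filter_filter]
      exact filter_congr fun Q _ => and_comm
    rw [h8']
    exact (ZMod.natCast_eq_zero_iff_even).1 h3
  obtain ⟨Q₁, Q₂, hne, hZ2⟩ := card_eq_two.1 hZc
  have hQ1 : Q₁ ∈ Z := by rw [hZ2]; exact mem_insert_self _ _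
  have hQ2 : Q₂ ∈ Z := by rw [hZ2]; exact mem_insert_of_mem (mem_singleton_self _)
  have hc1 : Q₁.card = 2 := mem_P.1 (mem_filter.1 hQ1).1
  have hc2 : Q₂.card = 2 := mem_P.1 (mem_filter.1 hQ2).1
  obtain ⟨x, hx1, hx2⟩ : ∃ x ∈ Q₁, x ∉ Q₂ := by
    by_contra hcon
    push Not at hcon
    exact hne (eq_of_subset_of_card_le hcon (by omega))
  have h1 := heven x
  have h2 : Z.filter (fun Q => x ∈ Q) = {Q₁} := by
    rw [hZ2]
    ext Q
    rw [mem_filter, mem_insert, mem_singleton, mem_singleton]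
    constructor
    · rintro ⟨h | h, h'⟩
      · exact h
      · rw [h] at h'; exact absurd h' hx2
    · intro h; rw [h]; exact ⟨Or.inl rfl, hx1⟩
  rw [h2, card_singleton] at h1
  exact absurd h1 (by decide)

end

section main
variable {𝒜 : Finset (Finset (Fin 7))}

/-- The triples of the family. -/
abbrev lo (𝒜 : Finset (Finset (Fin 7))) : Finset (Finset (Fin 7)) := 𝒜.filter (fun X => X.card = 3)

/-- The four-sets of the family. -/
abbrev hi (𝒜 : Finset (Finset (Fin 7))) : Finset (Finset (Fin 7)) := 𝒜.filter (fun X => X.card = 4)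

lemma card_split (hf : ∀ A ∈ 𝒜, A.card = 3 ∨ A.card = 3 + 1) :
    (lo 𝒜).card + (hi 𝒜).card = 𝒜.card := by
  have h := card_filter_add_card_filter_not (s := 𝒜) (fun X => X.card = 3)
  rw [← h]
  congr 1
  apply congrArg
  apply filter_congr
  intro X hX
  have := hf X hX
  omega

lemma hi_eq (hf : ∀ A ∈ 𝒜, A.card = 3 ∨ A.card = 3 + 1) (hm : IsMaxAntichain 7 𝒜) :
    (P 4).filter (fun U => c (lo 𝒜) U = 0) = hi 𝒜 := by
  ext U
  rw [mem_filter, mem_filter, mem_P]
  unfold c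
  rw [card_eq_zero, filter_eq_empty_iff]
  constructor
  · rintro ⟨h1, h2⟩
    refine ⟨?_, h1⟩
    by_contra hU
    obtain ⟨X, hX, h | h⟩ := hm.2 U hU
    · have h3 := card_lt_card h
      have h4 := hf X hX
      exact h2 (mem_filter.2 ⟨hX, by omega⟩) h.1
    · have h3 := card_lt_card h
      have h4 := hf X hX
      omega
  · rintro ⟨h1, h2⟩
    refine ⟨h2, fun X hX hXU => ?_⟩
    rw [mem_filter] at hX
    refine hm.1 X hX.1 U h1 (ssubset_of_subset_of_ne hXU ?_)
    rintro rfl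
    omega

/-- Complementation preserves flat maximal antichains. -/
lemma compl_max (hm : IsMaxAntichain 7 𝒜) : IsMaxAntichain 7 (𝒜.image compl) := by
  constructor
  · intro X hX Y hY hXY
    obtain ⟨X', hX', rfl⟩ := mem_image.1 hX
    obtain ⟨Y', hY', rfl⟩ := mem_image.1 hY
    exact hm.1 Y' hY' X' hX' (compl_ssubset_compl.1 hXY)
  · intro U hU
    have hU' : Uᶜ ∉ 𝒜 := by
      intro h
      exact hU (mem_image.2 ⟨Uᶜ, h, compl_compl U⟩)
    obtain ⟨X, hX, h | h⟩ := hm.2 Uᶜ hU'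
    · refine ⟨Xᶜ, mem_image_of_mem _ hX, Or.inr ?_⟩
      rw [← compl_compl U]
      exact compl_ssubset_compl.2 h
    · refine ⟨Xᶜ, mem_image_of_mem _ hX, Or.inl ?_⟩
      rw [← compl_compl U]
      exact compl_ssubset_compl.2 h

lemma compl_flat (hf : ∀ A ∈ 𝒜, A.card = 3 ∨ A.card = 3 + 1) :
    ∀ A ∈ 𝒜.image compl, A.card = 3 ∨ A.card = 3 + 1 := by
  intro X hX
  obtain ⟨X', hX', rfl⟩ := mem_image.1 hX
  rw [card_compl, Fintype.card_fin]
  have := hf X' hX'
  omega

lemma lo_compl : (lo (𝒜.image compl)).card = (hi 𝒜).card := by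
  unfold lo hi
  rw [filter_image, card_image_of_injective _ compl_injective]
  apply congrArg
  apply filter_congr
  intro X _
  show (Xᶜ).card = 3 ↔ X.card = 4
  rw [card_compl, Fintype.card_fin]
  omega

lemma hi_compl : (hi (𝒜.image compl)).card = (lo 𝒜).card := by
  unfold lo hi
  rw [filter_image, card_image_of_injective _ compl_injective]
  apply congrArg
  apply filter_congr
  intro X _
  show (Xᶜ).card = 4 ↔ X.card = 3
  rw [card_compl, Fintype.card_fin]
  omega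

lemma count (hf : ∀ A ∈ 𝒜, A.card = 3 ∨ A.card = 3 + 1) (hm : IsMaxAntichain 7 𝒜) :
    35 ≤ 4 * (lo 𝒜).card + (hi 𝒜).card := by
  have hP4 : (P 4).card = 35 := by
    unfold P; rw [card_powersetCard, card_univ, Fintype.card_fin]; decide
  have h3 : ∀ T ∈ lo 𝒜, T.card = 3 := fun T hT => (mem_filter.1 hT).2
  have h1 := sum_c (lo 𝒜) h3
  have h2 := card_filter_add_card_filter_not (s := P 4) (fun U => c (lo 𝒜) U = 0)
  rw [hi_eq hf hm, hP4] at h2
  have h4 : ((P 4).filter (fun U => ¬ c (lo 𝒜) U = 0)).card ≤ ∑ U ∈ P 4, c (lo 𝒜) U := by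
    rw [card_filter]
    refine sum_le_sum fun U _ => ?_
    split_ifs with h
    · exact Nat.zero_le _
    · exact Nat.one_le_iff_ne_zero.2 h
  omega

/-- Seven triples and eight four-sets is impossible. -/
lemma no_seven_eight (hf : ∀ A ∈ 𝒜, A.card = 3 ∨ A.card = 3 + 1) (hm : IsMaxAntichain 7 𝒜)
    (h7 : (lo 𝒜).card = 7) (h8 : (hi 𝒜).card = 8) : False :=
  key (lo 𝒜) (fun _ hT => (mem_filter.1 hT).2) h7 (by rw [hi_eq hf hm]; exact h8)

end main

theorem fourteen_le {m : ℕ} (hm : m ∈ S 7 3) : 14 ≤ m := by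
  obtain ⟨𝒜, hf, hmax, rfl⟩ := hm
  have h1 := count hf hmax
  have h2 := count (compl_flat hf) (compl_max hmax)
  rw [lo_compl, hi_compl] at h2
  have h3 := card_split hf
  omega

theorem fifteen_not_mem : 15 ∉ S 7 3 := by
  rintro ⟨𝒜, hf, hmax, h15⟩
  have h1 := count hf hmax
  have h2 := count (compl_flat hf) (compl_max hmax)
  rw [lo_compl, hi_compl] at h2
  have h3 := card_split hf
  rw [h15] at h3
  have h4 : ((lo 𝒜).card = 7 ∧ (hi 𝒜).card = 8) ∨ ((lo 𝒜).card = 8 ∧ (hi 𝒜).card = 7) := by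
    omega
  rcases h4 with ⟨h5, h6⟩ | ⟨h5, h6⟩
  · exact no_seven_eight hf hmax h5 h6
  · exact no_seven_eight (compl_flat hf) (compl_max hmax) (by rw [lo_compl]; exact h6)
      (by rw [hi_compl]; exact h5)

/-- The seven lines of the Fano plane together with their complements. -/
def fano : Finset (Finset (Fin 7)) :=
  {{0, 1, 2}, {0, 3, 4}, {0, 5, 6}, {1, 3, 5}, {1, 4, 6}, {2, 3, 6}, {2, 4, 5},
   {3, 4, 5, 6}, {1, 2, 5, 6}, {1, 2, 3, 4}, {0, 2, 4, 6}, {0, 2, 3, 5}, {0, 1, 4, 5},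
   {0, 1, 3, 6}}

lemma fano_flat : ∀ A ∈ fano, A.card = 3 ∨ A.card = 3 + 1 := by decide +kernel

lemma fano_anti : ∀ A ∈ fano, ∀ B ∈ fano, ¬ A ⊂ B := by decide +kernel

lemma fano_max : ∀ S : Finset (Fin 7), S ∉ fano → ∃ A ∈ fano, A ⊂ S ∨ S ⊂ A := by
  decide +kernel

theorem fourteen_mem : 14 ∈ S 7 3 :=
  ⟨fano, fano_flat, ⟨fano_anti, fano_max⟩, by decide +kernel⟩

/-- `14` is the least element of `S(7,3)`, `15` lies below `T(7,3) = 29` and is not in
`S(7,3)`; so the statement of the problem fails (for `n = 7`, `l = 3`). -/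
theorem result :
    IsLeast (S 7 3) 14 ∧ T 7 3 = 29 ∧ 15 ∉ S 7 3 ∧
    ¬ ∀ n l : ℕ, 3 ≤ l → 2 * l ≤ n + 1 →
      ∀ m : ℕ, sInf (S n l) ≤ m → (m : ℤ) ≤ T n l → m ∈ S n l := by
  have hl : IsLeast (S 7 3) 14 := ⟨fourteen_mem, fun _ hm => fourteen_le hm⟩
  have hT : T 7 3 = 29 := by
    unfold T
    have : Nat.choose 7 (3 + 1) = 35 := by decide
    rw [this]
    norm_num
  refine ⟨hl, hT, fifteen_not_mem, fun h => ?_⟩
  refine fifteen_not_mem (h 7 3 le_rfl (by norm_num) 15 ?_ ?_)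
  · rw [hl.csInf_eq]; norm_num
  · rw [hT]; norm_num

end Pool.Agent.Results.MP_6c6cee_co.GapAfterFano
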